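import Pool.Agent.AT6.Stmts3

/-!
# Squad AT6, module GEO: the average of the square roots of the diagonal entries
-/

open scoped BigOperators

noncomputable section

namespace Pool.Agent.PP.T6.H64

open Pool.Agent.Helper51_AWC Pool.Agent.Helper79_WRA Pool.Agent.PP Pool.Agent.PP.KF
open Pool.Agent.PP.K9 Pool.Agent.PP.K9.H97 Pool.Agent.PP.H75 Pool.Agent.PP.T3 Pool.Agent.PP.T2

attribute [local instance] Ideal.Quotient.field

/-- if the product of non-negative numbers is at least one, so is their average -/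
theorem card_le_sum {ι : Type*} (s : Finset ι) (x : ι → ℝ) (h0 : ∀ i ∈ s, 0 ≤ x i)
    (h : 1 ≤ ∏ i ∈ s, x i) : (s.card : ℝ) ≤ ∑ i ∈ s, x i := by
  have hpos : ∀ i ∈ s, 0 < x i := fun i hi => lt_of_le_of_ne (h0 i hi) (fun h1 => by
    have h2 : ∏ i ∈ s, x i = 0 := Finset.prod_eq_zero hi h1.symm
    rw [h2] at h
    linarith)
  have h1 : 0 ≤ ∑ i ∈ s, Real.log (x i) := by
    rw [← Real.log_prod (fun i hi => (hpos i hi).ne')]
    exact Real.log_nonneg h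
  have h2 : ∑ i ∈ s, (1 + Real.log (x i)) ≤ ∑ i ∈ s, x i := Finset.sum_le_sum fun i hi => by
    have h3 := Real.log_le_sub_one_of_pos (hpos i hi)
    linarith
  rw [Finset.sum_add_distrib, Finset.sum_const, nsmul_eq_mul, mul_one] at h2
  linarith

/-- GEO -/
theorem geo (inm : InmStmt) (psv : PsvStmt) (nrp : NrpStmt) : GeoStmt := by
  intro ℓ _ M _ hM G _ _ e V γ hL v hv b hb a ha hva χ hχ
  have hℓ : ℓ.Prime := Fact.out
  have hζ := Complex.isPrimitiveRoot_exp (ℓ ^ a) (pow_ne_zero _ hℓ.ne_zero)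
  set ζ : ℂ := Complex.exp (2 * Real.pi * Complex.I / ((ℓ ^ a : ℕ) : ℂ)) with hζd
  obtain ⟨n, hn⟩ := inm ℓ M hM G e V γ hL v hv b hb a hva ζ hζ χ hχ.1 χ hχ.1
  have hne : Mm M ℓ V γ v b χ χ ≠ 0 := (psv ℓ M hM G e V γ hL v hv b hb).2.1 χ hχ
  have h11 : ¬ ℓ ∣ 1 := hℓ.not_dvd_one
  have hint : IsIntegral ℤ ζ := hζ.isIntegral (pow_pos hℓ.pos a)
  have h1 := nrp ℓ M hM a 0 ha ζ hζ n
    (fun j _ => ⟨_, RM_of_int (IsIntegral.sum _ fun i _ =>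
      (isIntegral_algebraMap (R := ℤ) (A := ℂ) (x := n i)).mul (hint.pow (i * j))), by
        rw [pow_zero, one_mul]; rfl⟩) 1 h11
    (by rw [← hn 1 h11, pow_one]; exact hne)
  rw [pow_zero, one_pow] at h1
  have h2 : ∏ j ∈ un ℓ a, ‖∑ i ∈ Finset.range (ℓ ^ a), (n i : ℂ) * ζ ^ (i * j)‖ =
      ∏ j ∈ un ℓ a, ‖Mm M ℓ V γ (v ^ j) b χ χ‖ :=
    Finset.prod_congr rfl fun j hj => by rw [hn j (Finset.mem_filter.1 hj).2]
  rw [h2] at h1
  refine card_le_sum _ _ (fun j _ => Real.sqrt_nonneg _) ?_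
  have h3 : (∏ j ∈ un ℓ a, Real.sqrt ‖Mm M ℓ V γ (v ^ j) b χ χ‖) ^ 2 =
      ∏ j ∈ un ℓ a, ‖Mm M ℓ V γ (v ^ j) b χ χ‖ := by
    rw [← Finset.prod_pow]
    exact Finset.prod_congr rfl fun j _ => Real.sq_sqrt (norm_nonneg _)
  have h4 : 0 ≤ ∏ j ∈ un ℓ a, Real.sqrt ‖Mm M ℓ V γ (v ^ j) b χ χ‖ :=
    Finset.prod_nonneg fun j _ => Real.sqrt_nonneg _
  nlinarith

end Pool.Agent.PP.T6.H64
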